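import Pool.Agent.Helper36_M1D.Stmts

/-! M1D: module PIECEK. -/

set_option autoImplicit false
open Set Topology Filter

namespace Pool.Agent.MD.H81

theorem restrict_K (B : Set Cant) (b : B) : (DD.restrict B).K b = KK b := by
  ext p
  exact ddist_eq_zero (KK_closed _) p

theorem dim_empty {Z : Type} [TopologicalSpace Z] : DimLe1On (∅ : Set Z) := by
  intro k U _ _
  refine ⟨fun _ => ∅, fun _ => isClosed_empty, fun _ => empty_subset _, empty_subset _, fun x => ?_⟩
  simp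

/-- the closed set of the plane of coordinates -/
def KP (b : Cant) : Set (unitInterval × Cant) := {q | eM.symm (q.1, q.2, b) ∈ LL b}

theorem KP_closed (b : Cant) : IsClosed (KP b) := by
  refine (LL_closed b).preimage (eM.symm.continuous.comp ?_)
  fun_prop

theorem eM_symm_eq (p : MM) (b : Cant) (h : gg p = b) : eM.symm (tt p, cc p, b) = p := by
  rw [← h]
  exact eM.symm_apply_apply p

theorem piecek (hFK : FK) (hTAU : TAU) (hTD : TD) (hSUBT : SUBT) : PIECEK := by
  intro B b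
  rw [restrict_K]
  by_cases hthin : Thin (b : Cant)
  swap
  · have h0 : KK (b : Cant) = ∅ := by
      ext p
      simp [KK, hthin]
    rw [h0, preimage_empty]
    exact dim_empty
  obtain ⟨ι, hι⟩ := hTD (KP b) (KP_closed b) hthin.2
  set D := DD.restrict B with hD
  have hKb : D.K b = KK b := restrict_K B b
  have hcl : IsClosed (D.toM ⁻¹' KK (b : Cant)) :=
    (KK_closed _).preimage (hTAU.cont_toM MM B D)
  have hmem : ∀ x : (D.toM ⁻¹' KK (b : Cant) : Set D.TX), (tt (D.toM x.1), cc (D.toM x.1)) ∈ KP b := by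
    intro x
    change eM.symm (tt (D.toM x.1), cc (D.toM x.1), (b : Cant)) ∈ LL b
    rw [eM_symm_eq _ _ x.2.2.2]
    exact x.2.2.1
  have hNN : ∀ x : (D.toM ⁻¹' KK (b : Cant) : Set D.TX), D.NN (D.toM x.1) ∈ Icc (0 : ℝ) 1 :=
    fun x => ⟨hFK.NN_nonneg MM B D _, hFK.NN_le_one MM B D _⟩
  have hcM : Continuous fun x : (D.toM ⁻¹' KK (b : Cant) : Set D.TX) => D.toM x.1 :=
    (hTAU.cont_toM MM B D).comp continuous_subtype_val
  refine hSUBT D.TX _ hcl (fun x => ((⟨D.NN (D.toM x.1), hNN x⟩ : unitInterval), ι ⟨_, hmem x⟩)) ?_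
  have hcι : Continuous fun x : (D.toM ⁻¹' KK (b : Cant) : Set D.TX) => ι ⟨_, hmem x⟩ := by
    refine hι.continuous.comp (Continuous.subtype_mk ?_ _)
    exact (continuous_tt.comp hcM).prodMk (continuous_cc.comp hcM)
  have hcN : Continuous fun x : (D.toM ⁻¹' KK (b : Cant) : Set D.TX) => D.NN (D.toM x.1) := by
    have h1 : (fun x : (D.toM ⁻¹' KK (b : Cant) : Set D.TX) => D.NN (D.toM x.1)) =
        fun x : (D.toM ⁻¹' KK (b : Cant) : Set D.TX) => D.f b (D.toM x.1) := by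
      funext x
      rw [hFK.f_eq_NN MM B D b]
      rw [hKb]
      exact x.2
    rw [h1]
    exact (hTAU.cont_f MM B D b).comp continuous_subtype_val
  have hcont : Continuous fun x : (D.toM ⁻¹' KK (b : Cant) : Set D.TX) =>
      ((⟨D.NN (D.toM x.1), hNN x⟩ : unitInterval), ι ⟨_, hmem x⟩) :=
    (Continuous.subtype_mk hcN _).prodMk hcι
  rw [isInducing_iff_nhds]
  intro x
  apply le_antisymm
  · exact hcont.continuousAt.tendsto.le_comap
  · rw [nhds_subtype_eq_comap]
    rw [← tendsto_iff_comap]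
    set l := comap (fun x : (D.toM ⁻¹' KK (b : Cant) : Set D.TX) =>
      ((⟨D.NN (D.toM x.1), hNN x⟩ : unitInterval), ι ⟨_, hmem x⟩))
      (𝓝 ((⟨D.NN (D.toM x.1), hNN x⟩ : unitInterval), ι ⟨_, hmem x⟩)) with hl
    have ht : Tendsto (fun x : (D.toM ⁻¹' KK (b : Cant) : Set D.TX) =>
      ((⟨D.NN (D.toM x.1), hNN x⟩ : unitInterval), ι ⟨_, hmem x⟩)) l
      (𝓝 ((⟨D.NN (D.toM x.1), hNN x⟩ : unitInterval), ι ⟨_, hmem x⟩)) := tendsto_comap
    have ht1 : Tendsto (fun y : (D.toM ⁻¹' KK (b : Cant) : Set D.TX) => D.NN (D.toM y.1)) l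
        (𝓝 (D.NN (D.toM x.1))) :=
      (continuous_subtype_val.tendsto _).comp ((continuous_fst.tendsto _).comp ht)
    have ht2 : Tendsto (fun y : (D.toM ⁻¹' KK (b : Cant) : Set D.TX) => ι ⟨_, hmem y⟩) l
        (𝓝 (ι ⟨_, hmem x⟩)) := (continuous_snd.tendsto _).comp ht
    have ht3 : Tendsto (fun y : (D.toM ⁻¹' KK (b : Cant) : Set D.TX) =>
        (⟨_, hmem y⟩ : KP (b : Cant))) l (𝓝 ⟨_, hmem x⟩) := (hι.tendsto_nhds_iff).2 ht2
    have ht4 : Tendsto (fun y : (D.toM ⁻¹' KK (b : Cant) : Set D.TX) =>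
        (tt (D.toM y.1), cc (D.toM y.1))) l (𝓝 (tt (D.toM x.1), cc (D.toM x.1))) :=
      (continuous_subtype_val.tendsto _).comp ht3
    have hc5 : Continuous fun q : unitInterval × Cant => eM.symm (q.1, q.2, (b : Cant)) :=
      eM.symm.continuous.comp (by fun_prop)
    have ht5 : Tendsto (fun y : (D.toM ⁻¹' KK (b : Cant) : Set D.TX) => D.toM y.1) l
        (𝓝 (D.toM x.1)) := by
      have h6 := (hc5.tendsto _).comp ht4
      have h7 : (fun q : unitInterval × Cant => eM.symm (q.1, q.2, (b : Cant))) ∘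
          (fun y : (D.toM ⁻¹' KK (b : Cant) : Set D.TX) => (tt (D.toM y.1), cc (D.toM y.1))) =
          fun y : (D.toM ⁻¹' KK (b : Cant) : Set D.TX) => D.toM y.1 := by
        funext y
        exact eM_symm_eq _ _ y.2.2.2
      rw [h7, eM_symm_eq _ _ x.2.2.2] at h6
      exact h6
    exact hTAU.tendsto_toX MM B D _ l _ _ ht5 ht1

end Pool.Agent.MD.H81
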